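import Pool.Agent.Helper91.KZ.StL

/-! COM: commutativity. -/

namespace Pool.Agent.Helper47.KZ

open Pool.Agent.Helper91.KZ Polynomial TensorProduct

universe u

theorem COM (hRES : ST_RES.{u}) (hCYC : ST_CYC.{u}) : ST_COM.{u} := by
  intro F D _ _ _ _ _ hD h x y
  by_contra hxy
  obtain ⟨p, e, K, _, _, C, _, _, hp, he, hK, -⟩ := hRES F D hD ⟨x, y, hxy⟩
    (fun p hp => ⟨1, h p hp⟩)
  obtain ⟨M, _, _, K1, _, _, s, T, _, _, hM, hK1, -, hT, hTp, hTK⟩ :=
    hCYC F K p (p ^ e) hp hK (dvd_pow_self p he.ne')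
  apply h p hp M K1
  have h0 : CYS p M 0 M := Module.finrank_self M
  exact ⟨M, K1, inferInstance, inferInstance, inferInstance, inferInstance, h0, hK1,
    ⟨T, inferInstance, inferInstance, hT, hTp, hTK⟩, ⟨Algebra.TensorProduct.lid M K1⟩⟩

end Pool.Agent.Helper47.KZ
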