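import Pool.Agent.Helper91.KZ.StS

/-! CS3: the opposite algebra. -/

namespace Pool.Agent.Helper47.KZ

open Pool.Agent.Helper91.KZ Polynomial TensorProduct

universe u

theorem cs3_cen {E K : Type u} [Field E] [Ring K] [Algebra E K]
    (h : ∀ x : K, (∀ y : K, x * y = y * x) → ∃ e : E, algebraMap E K e = x) (x : Kᵐᵒᵖ)
    (hx : ∀ y : Kᵐᵒᵖ, x * y = y * x) : ∃ e : E, algebraMap E Kᵐᵒᵖ e = x := by
  obtain ⟨e, he⟩ := h x.unop (fun y => by
    have := congrArg MulOpposite.unop (hx (MulOpposite.op y))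
    rw [MulOpposite.unop_mul, MulOpposite.unop_mul, MulOpposite.unop_op] at this
    exact this.symm)
  refine ⟨e, ?_⟩
  rw [MulOpposite.algebraMap_apply, he, MulOpposite.op_unop]

theorem cs3_op {E K : Type u} [Field E] [Ring K] [Algebra E K] (h : CS E K) : CS E Kᵐᵒᵖ := by
  have := h.sim
  have := h.fin
  exact ⟨inferInstance, Module.Finite.equiv (MulOpposite.opLinearEquiv E), cs3_cen h.cen⟩

theorem CS3 (hCS1 : ST_CS1.{u}) : ST_CS3.{u} := by
  intro E _
  constructor
  · intro K _ _ hK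
    refine ⟨cs3_op hK, ?_⟩
    have := hK.sim
    have := hK.fin
    have hop := cs3_op hK
    have := hop.fin
    have hten : CS E (K ⊗[E] Kᵐᵒᵖ) := (hCS1 E).1 K Kᵐᵒᵖ hK hop
    have := hten.sim
    have := hten.fin
    have hinj : Function.Injective (AlgHom.mulLeftRight E K).toLinearMap :=
      (AlgHom.mulLeftRight E K).toRingHom.injective
    have hfr : Module.finrank E (K ⊗[E] Kᵐᵒᵖ) = Module.finrank E (Module.End E K) := by
      rw [Module.finrank_tensorProduct, Module.finrank_linearMap,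
        ← (MulOpposite.opLinearEquiv E : K ≃ₗ[E] Kᵐᵒᵖ).finrank_eq]
    have hsurj : Function.Surjective (AlgHom.mulLeftRight E K).toLinearMap :=
      (LinearMap.injective_iff_surjective_of_finrank_eq_finrank hfr).mp hinj
    refine ⟨Module.finrank_pos, ⟨?_⟩⟩
    exact (AlgEquiv.ofBijective (AlgHom.mulLeftRight E K) ⟨hinj, hsurj⟩).trans
      (algEquivMatrix (Module.finBasis E K))
  · intro K _ _ n hK
    obtain ⟨hda, hn, hfin, hfr⟩ := hK
    have h1 : FiniteDimensional E Kᵐᵒᵖ := Module.Finite.equiv (MulOpposite.opLinearEquiv E)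
    refine ⟨⟨fun x => IsIntegral.of_finite E x, cs3_cen hda.cen⟩, hn, h1, ?_⟩
    rw [← (MulOpposite.opLinearEquiv E : K ≃ₗ[E] Kᵐᵒᵖ).finrank_eq]
    exact hfr

end Pool.Agent.Helper47.KZ
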