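import Pool.Agent.Helper39.KZ.Stmts

/-!
# Crouzeix's conjecture: the constant is exactly two

The upper bound is taken from `KZ.ST_GEN`; the lower bound is the nilpotent `2 × 2` block.
-/

set_option autoImplicit false

open Polynomial

namespace KZ.Final

/-- the values of `|p|` on the numerical range of `A` are bounded -/
theorem bdd {E : Type*} [NormedAddCommGroup E] [InnerProductSpace ℂ E] (A : E →L[ℂ] E)
    (p : Polynomial ℂ) : BddAbove {r : ℝ | ∃ x : E, ‖x‖ = 1 ∧ r = ‖p.eval (inner ℂ x (A x))‖} := by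
  have hc : IsCompact (Metric.closedBall (0 : ℂ) ‖A‖) := isCompact_closedBall _ _
  obtain ⟨C, hC⟩ := hc.exists_bound_of_continuousOn (f := fun z => p.eval z)
    p.continuous.continuousOn
  refine ⟨C, ?_⟩
  rintro r ⟨x, hx, rfl⟩
  apply hC
  rw [mem_closedBall_zero_iff]
  calc ‖inner ℂ x (A x)‖ ≤ ‖x‖ * ‖A x‖ := norm_inner_le_norm _ _
    _ ≤ ‖x‖ * (‖A‖ * ‖x‖) := by gcongr; exact A.le_opNorm x
    _ = ‖A‖ := by rw [hx]; ring

theorem sup_nonneg {E : Type*} [NormedAddCommGroup E] [InnerProductSpace ℂ E] (A : E →L[ℂ] E)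
    (p : Polynomial ℂ) :
    0 ≤ sSup {r : ℝ | ∃ x : E, ‖x‖ = 1 ∧ r = ‖p.eval (inner ℂ x (A x))‖} := by
  apply Real.sSup_nonneg
  rintro r ⟨x, hx, rfl⟩
  exact norm_nonneg _

/-- the upper bound -/
theorem upper.{u} (hG : ST_GEN.{u}) {E : Type u} [NormedAddCommGroup E] [InnerProductSpace ℂ E]
    (A : E →L[ℂ] E) (p : Polynomial ℂ) :
    ‖Polynomial.aeval A p‖
      ≤ 2 * sSup {r : ℝ | ∃ x : E, ‖x‖ = 1 ∧ r = ‖p.eval (inner ℂ x (A x))‖} :=
  hG E A p _ (sup_nonneg A p) (fun x hx => le_csSup (bdd A p) ⟨x, hx, rfl⟩)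

/-- the nilpotent block with respect to two coordinates `i`, `j` -/
noncomputable def nil {ι : Type*} [Fintype ι] [DecidableEq ι] (i j : ι) :
    EuclideanSpace ℂ ι →L[ℂ] EuclideanSpace ℂ ι :=
  (EuclideanSpace.proj j : EuclideanSpace ℂ ι →L[ℂ] ℂ).smulRight
    (EuclideanSpace.single i (1 : ℂ))

theorem nil_apply {ι : Type*} [Fintype ι] [DecidableEq ι] (i j : ι) (x : EuclideanSpace ℂ ι) :
    nil i j x = x j • EuclideanSpace.single i (1 : ℂ) := rfl

/-- the lower bound -/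
theorem lower {ι : Type*} [Fintype ι] [DecidableEq ι] {i j : ι} (hij : i ≠ j) {k : ℝ}
    (h : ‖Polynomial.aeval (nil i j) (X : Polynomial ℂ)‖ ≤
      k * sSup {r : ℝ | ∃ x : EuclideanSpace ℂ ι, ‖x‖ = 1 ∧
        r = ‖(X : Polynomial ℂ).eval (inner ℂ x (nil i j x))‖}) : 2 ≤ k := by
  set M : ℝ := sSup {r : ℝ | ∃ x : EuclideanSpace ℂ ι, ‖x‖ = 1 ∧
        r = ‖(X : Polynomial ℂ).eval (inner ℂ x (nil i j x))‖} with hM
  have hM0 : 0 ≤ M := sup_nonneg _ _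
  have hM1 : M ≤ 1 / 2 := by
    refine Real.sSup_le ?_ (by norm_num)
    rintro r ⟨x, hx, rfl⟩
    have e1 : inner ℂ x (nil i j x) = x j * (starRingEnd ℂ) (x i) := by
      rw [nil_apply, inner_smul_right, EuclideanSpace.inner_single_right]
      simp
    have e2 : ‖x i‖ ^ 2 + ‖x j‖ ^ 2 ≤ 1 := by
      have h1 : ‖x‖ ^ 2 = ∑ l, ‖x l‖ ^ 2 := EuclideanSpace.norm_sq_eq x
      have h2 : ∑ l ∈ ({i, j} : Finset ι), ‖x l‖ ^ 2 ≤ ∑ l, ‖x l‖ ^ 2 :=
        Finset.sum_le_sum_of_subset_of_nonneg (Finset.subset_univ _) (fun _ _ _ => by positivity)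
      rw [Finset.sum_pair hij] at h2
      rw [hx] at h1
      linarith
    rw [eval_X, e1, norm_mul, Complex.norm_conj]
    nlinarith [sq_nonneg (‖x i‖ - ‖x j‖)]
  have h1 : 1 ≤ ‖nil (ι := ι) i j‖ := by
    have h2 := (nil i j).le_opNorm (EuclideanSpace.single j (1 : ℂ))
    have h3 : nil i j (EuclideanSpace.single j (1 : ℂ)) = EuclideanSpace.single i (1 : ℂ) := by
      rw [nil_apply]
      simp
    rw [h3, PiLp.norm_single, PiLp.norm_single, norm_one, mul_one] at h2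
    exact h2
  rw [aeval_X] at h
  have h4 : 1 ≤ k * M := h1.trans h
  have hk : 0 < k := by
    by_contra hk
    have : k * M ≤ 0 := mul_nonpos_of_nonpos_of_nonneg (not_lt.1 hk) hM0
    linarith
  nlinarith

/-- The constant of the numerical range inequality is exactly `2`. -/
theorem main_of.{u} (hG : ST_GEN.{u}) (hG0 : ST_GEN.{0}) :
    (∀ (E : Type u) [NormedAddCommGroup E] [InnerProductSpace ℂ E] (A : E →L[ℂ] E)
        (p : Polynomial ℂ),
      BddAbove {r : ℝ | ∃ x : E, ‖x‖ = 1 ∧ r = ‖p.eval (inner ℂ x (A x))‖} ∧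
      ‖Polynomial.aeval A p‖
        ≤ 2 * sSup {r : ℝ | ∃ x : E, ‖x‖ = 1 ∧ r = ‖p.eval (inner ℂ x (A x))‖}) ∧
    IsLeast {k : ℝ | ∀ (H : Type u) [NormedAddCommGroup H] [InnerProductSpace ℂ H]
        [CompleteSpace H] (A : H →L[ℂ] H) (p : Polynomial ℂ),
      ‖Polynomial.aeval A p‖
        ≤ k * sSup {r : ℝ | ∃ x : H, ‖x‖ = 1 ∧ r = ‖p.eval (inner ℂ x (A x))‖}} 2 ∧
    IsLeast {k : ℝ | ∀ (n : ℕ) (A : EuclideanSpace ℂ (Fin n) →L[ℂ] EuclideanSpace ℂ (Fin n))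
        (p : Polynomial ℂ),
      ‖Polynomial.aeval A p‖
        ≤ k * sSup {r : ℝ | ∃ x : EuclideanSpace ℂ (Fin n), ‖x‖ = 1 ∧
          r = ‖p.eval (inner ℂ x (A x))‖}} 2 := by
  refine ⟨fun E _ _ A p => ⟨bdd A p, upper hG A p⟩, ⟨?_, ?_⟩, ⟨?_, ?_⟩⟩
  · intro H _ _ _ A p
    exact upper hG A p
  · intro k hk
    have hij : (ULift.up 0 : ULift.{u} (Fin 2)) ≠ ULift.up 1 := by
      intro h
      exact absurd (congrArg ULift.down h) (by decide)
    exact lower hij (hk (EuclideanSpace ℂ (ULift.{u} (Fin 2))) (nil _ _) X)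
  · intro n A p
    exact upper hG0 A p
  · intro k hk
    exact lower (i := (0 : Fin 2)) (j := 1) (by decide) (hk 2 (nil _ _) X)

end KZ.Final
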