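import Pool.Agent.Helper91.KZ.StM

/-! KZW: the cyclic structure over finite extensions. -/

namespace Pool.Agent.Helper47.KZ

open Pool.Agent.Helper91.KZ Polynomial TensorProduct

universe u

noncomputable section

/-- the map `t ↦ 1 ⊗ i' (e (1 ⊗ t))` -/
def kzw_g {E T Z T' K W : Type u} [Field E] [Field T] [Algebra E T] [Field Z] [Algebra E Z]
    [Field T'] [Algebra Z T'] [DivisionRing K] [Algebra Z K] [Field W] [Algebra E W] [Algebra Z W]
    [IsScalarTower E Z W] (e : Z ⊗[E] T ≃ₐ[Z] T') (i' : T' →ₐ[Z] K) : T →ₐ[E] W ⊗[Z] K where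
  toFun t := 1 ⊗ₜ i' (e (1 ⊗ₜ t))
  map_one' := by
    rw [← Algebra.TensorProduct.one_def, map_one, map_one]
    rfl
  map_mul' a b := by
    have h : (1 : Z) ⊗ₜ[E] (a * b) = ((1 : Z) ⊗ₜ[E] a) * ((1 : Z) ⊗ₜ[E] b) := by
      rw [Algebra.TensorProduct.tmul_mul_tmul, one_mul]
    rw [h, map_mul, map_mul, Algebra.TensorProduct.tmul_mul_tmul, one_mul]
  map_zero' := by
    rw [TensorProduct.tmul_zero, map_zero, map_zero, TensorProduct.tmul_zero]
  map_add' a b := by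
    rw [TensorProduct.tmul_add, map_add, map_add, TensorProduct.tmul_add]
  commutes' a := by
    have h : (1 : Z) ⊗ₜ[E] (algebraMap E T a) = algebraMap Z (Z ⊗[E] T) (algebraMap E Z a) := by
      rw [Algebra.TensorProduct.algebraMap_apply, Algebra.algebraMap_self_apply,
        Algebra.algebraMap_eq_smul_one, Algebra.algebraMap_eq_smul_one, TensorProduct.tmul_smul,
        TensorProduct.smul_tmul']
    rw [h, AlgEquiv.commutes, AlgHom.commutes, Algebra.algebraMap_eq_smul_one (A := K),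
      TensorProduct.tmul_smul, TensorProduct.smul_tmul', Algebra.TensorProduct.algebraMap_apply,
      IsScalarTower.algebraMap_apply E Z W, Algebra.algebraMap_eq_smul_one (R := Z) (A := W)]

theorem kzw_g_apply {E T Z T' K W : Type u} [Field E] [Field T] [Algebra E T] [Field Z]
    [Algebra E Z] [Field T'] [Algebra Z T'] [DivisionRing K] [Algebra Z K] [Field W] [Algebra E W]
    [Algebra Z W] [IsScalarTower E Z W] (e : Z ⊗[E] T ≃ₐ[Z] T') (i' : T' →ₐ[Z] K) (t : T) :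
    kzw_g (W := W) e i' t = 1 ⊗ₜ i' (e (1 ⊗ₜ t)) := rfl

/-- the map from `T''` -/
def kzw_i {E T Z T' K W T'' : Type u} [Field E] [Field T] [Algebra E T] [Field Z] [Algebra E Z]
    [Field T'] [Algebra Z T'] [DivisionRing K] [Algebra Z K] [Field W] [Algebra E W] [Algebra Z W]
    [IsScalarTower E Z W] [Field T''] [Algebra W T''] (e : Z ⊗[E] T ≃ₐ[Z] T') (i' : T' →ₐ[Z] K)
    (e'' : W ⊗[E] T ≃ₐ[W] T'') : T'' →ₐ[W] W ⊗[Z] K :=
  (Algebra.TensorProduct.lift (Algebra.ofId W (W ⊗[Z] K)) (kzw_g (W := W) e i')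
    (fun a _ => Algebra.commutes a _)).comp e''.symm.toAlgHom

theorem kzw_i_apply {E T Z T' K W T'' : Type u} [Field E] [Field T] [Algebra E T] [Field Z]
    [Algebra E Z] [Field T'] [Algebra Z T'] [DivisionRing K] [Algebra Z K] [Field W] [Algebra E W]
    [Algebra Z W] [IsScalarTower E Z W] [Field T''] [Algebra W T''] (e : Z ⊗[E] T ≃ₐ[Z] T')
    (i' : T' →ₐ[Z] K) (e'' : W ⊗[E] T ≃ₐ[W] T'') (a : W) (t : T) :
    kzw_i e i' e'' (e'' (a ⊗ₜ t)) = a ⊗ₜ i' (e (1 ⊗ₜ t)) := by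
  unfold kzw_i
  rw [AlgHom.comp_apply]
  have h : e''.symm.toAlgHom (e'' (a ⊗ₜ t)) = a ⊗ₜ t := e''.symm_apply_apply _
  rw [h, Algebra.TensorProduct.lift_tmul, kzw_g_apply, Algebra.ofId_apply,
    Algebra.TensorProduct.algebraMap_apply, Algebra.algebraMap_self_apply,
    Algebra.TensorProduct.tmul_mul_tmul, mul_one, one_mul]

theorem KZW (hCS1 : ST_CS1.{u}) (hCS2 : ST_CS2.{u}) (hTS : ST_TS.{u}) (hKPE : ST_KPE.{u})
    (hMMI : ST_MMI.{u}) (hDVS : ST_DVS.{u}) : ST_KZW.{u} := by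
  intro E T Δ _ _ _ _ _ _ _ _ _ p σ i y hp hT hσ hΔ d hKP W T'' _ _ _ _ _ w σ'' e'' hw hC
  obtain ⟨φ, hφ⟩ := d.gen W w hw
  let algZW : Algebra d.Z W := φ.toRingHom.toAlgebra
  have hmap : ∀ z : d.Z, algebraMap d.Z W z = φ z := fun z => rfl
  have : IsScalarTower E d.Z W := IsScalarTower.of_algebraMap_eq (fun x => by
    rw [hmap, AlgHom.commutes])
  have := d.fin
  have : FiniteDimensional d.Z W := FiniteDimensional.right E d.Z W
  have : Uncountable d.Z := (algebraMap E d.Z).injective.uncountable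
  have : PerfectField d.Z := Algebra.IsAlgebraic.perfectField (K := E)
  have hK : CS d.Z d.K := (hCS2 d.Z).2 d.K p d.cd
  have hKW : CS W (W ⊗[d.Z] d.K) := (hCS1 d.Z).2 d.K W hK
  obtain ⟨s, D, _, _, hcor, -⟩ := hTS d.Z d.Δ' W d.da
  have hKPD : KP p 0 W D := hKPE d.Z d.Δ' W D p 0 s d.da hKP hcor
  have m1 : MI W (W ⊗[E] Δ) (W ⊗[d.Z] (d.K ⊗[d.Z] d.Δ')) (Module.finrank E d.Z) :=
    (hMMI E d.Z).2.2.2.2.1 W Δ (d.K ⊗[d.Z] d.Δ') _ d.mi
  obtain ⟨f⟩ := (hMMI d.Z W).2.2.2.1 d.Δ' d.K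
  have m2 : MI W ((W ⊗[d.Z] d.K) ⊗[W] (W ⊗[d.Z] d.Δ')) ((W ⊗[d.Z] d.K) ⊗[W] D) (1 * s) :=
    (hMMI W W).2.2.1 _ _ _ _ 1 s ((hDVS W).2.2.1 _ _ ⟨AlgEquiv.refl⟩) hcor.2
  have m3 : MI W (W ⊗[d.Z] (d.K ⊗[d.Z] d.Δ')) ((W ⊗[d.Z] d.K) ⊗[W] D) (1 * s) :=
    (hMMI W W).2.2.2.2.2 _ _ _ _ ⟨f.symm⟩ m2
  have m4 := (hMMI W W).1 _ _ _ _ _ m1 m3
  refine ⟨W ⊗[d.Z] d.K, inferInstance, inferInstance, kzw_i d.e d.i' e'', 1 ⊗ₜ d.y', D,
    inferInstance, inferInstance, _, ⟨hKW, ?_, ?_, ?_, ?_⟩, hcor.1, hKPD, m4⟩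
  · rw [Module.finrank_baseChange]
    exact d.cd.2.2.2
  · intro t
    obtain ⟨x, rfl⟩ := e''.surjective t
    induction x using TensorProduct.induction_on with
    | zero => simp
    | add a b ha hb =>
      rw [map_add, map_add, map_add, map_add, mul_add, add_mul, ha, hb]
    | tmul a t =>
      have h1 : σ'' (e'' (a ⊗ₜ t)) = e'' (a ⊗ₜ σ t) := by
        have h2 : ∀ t : T, (a : W) ⊗ₜ[E] t = a • ((1 : W) ⊗ₜ[E] t) := by
          intro t
          rw [TensorProduct.smul_tmul', smul_eq_mul, mul_one]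
        rw [h2 t, h2 (σ t), map_smul, map_smul, map_smul, hC.cmp]
      rw [h1, kzw_i_apply, kzw_i_apply, Algebra.TensorProduct.tmul_mul_tmul,
        Algebra.TensorProduct.tmul_mul_tmul, mul_one, one_mul, d.cyc.yt, d.cps.cmp]
  · rw [Algebra.TensorProduct.tmul_pow, one_pow, d.cyc.yp, Algebra.TensorProduct.algebraMap_apply,
      Algebra.algebraMap_self_apply, ← hφ, ← hmap, Algebra.algebraMap_eq_smul_one (A := d.K),
      TensorProduct.tmul_smul, TensorProduct.smul_tmul', Algebra.algebraMap_eq_smul_one (A := W)]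
  · rw [← hφ]
    intro h
    exact d.z0 ((map_eq_zero φ).mp h)

end

end Pool.Agent.Helper47.KZ
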