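import Pool.Agent.Helper91.KZ.StT

/-! TWT: the trivial cocycle if `N ⊗ Y` is a division algebra. -/

namespace Pool.Agent.Helper47.KZ

open Pool.Agent.Helper91.KZ Polynomial TensorProduct

universe u

noncomputable section

variable {E N Y Δ : Type u} [Field E] [Field N] [Algebra E N] [Ring Y] [Algebra E Y]
  [DivisionRing Δ] [Algebra N Δ]

/-- the action of `g` on `N ⊗ Y` -/
def twt_c (Y : Type u) [Ring Y] [Algebra E Y] (g : N ≃ₐ[E] N) : N ⊗[E] Y ≃ₐ[E] N ⊗[E] Y :=
  Algebra.TensorProduct.congr g AlgEquiv.refl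

theorem twt_c_tmul (g : N ≃ₐ[E] N) (n : N) (y : Y) :
    twt_c Y g (n ⊗ₜ y) = g n ⊗ₜ y := rfl

theorem twt_c_n (g : N ≃ₐ[E] N) (n : N) (a : N ⊗[E] Y) :
    twt_c Y g (n • a) = g n • twt_c Y g a := by
  have h : ∀ (n : N) (a : N ⊗[E] Y), n • a = (n ⊗ₜ (1 : Y)) * a := by
    intro n a
    rw [Algebra.smul_def, Algebra.TensorProduct.algebraMap_apply, Algebra.algebraMap_self_apply]
  rw [h, h, map_mul, twt_c_tmul]

theorem twt_c_y (g : N ≃ₐ[E] N) (y : Y) (a : N ⊗[E] Y) :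
    twt_c Y g ((1 ⊗ₜ y) * a) = (1 ⊗ₜ y) * twt_c Y g a := by
  rw [map_mul, twt_c_tmul, map_one]

theorem twt_c_c (g h : N ≃ₐ[E] N) (a : N ⊗[E] Y) :
    twt_c Y g (twt_c Y h a) = twt_c Y (g * h) a := by
  induction a using TensorProduct.induction_on with
  | zero => simp
  | tmul n y => simp only [twt_c_tmul, AlgEquiv.mul_apply]
  | add a b ha hb => simp only [map_add, ha, hb]

/-- the ring hom from `Y` -/
def twt_j (Φ : N ⊗[E] Y ≃ₐ[N] Δ) : Y →+* Δ :=
  Φ.toAlgHom.toRingHom.comp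
    (Algebra.TensorProduct.includeRight : Y →ₐ[E] N ⊗[E] Y).toRingHom

theorem twt_j_apply (Φ : N ⊗[E] Y ≃ₐ[N] Δ) (y : Y) : twt_j Φ y = Φ (1 ⊗ₜ y) := rfl

/-- closure of subgroups -/
theorem twt_sub (Φ : N ⊗[E] Y ≃ₐ[N] Δ) (W : AddSubgroup Δ)
    (h1 : ∀ (n : N), ∀ w ∈ W, n • w ∈ W) (h2 : ∀ (x : Y), ∀ w ∈ W, twt_j Φ x * w ∈ W)
    (v w : Δ) (hw : w ∈ W) : v * w ∈ W := by
  obtain ⟨a, rfl⟩ := Φ.surjective v
  induction a using TensorProduct.induction_on with
  | zero =>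
    rw [map_zero, zero_mul]
    exact W.zero_mem
  | tmul n y =>
    have h : (n ⊗ₜ[E] y : N ⊗[E] Y) = n • (1 ⊗ₜ y) := by
      rw [TensorProduct.smul_tmul', smul_eq_mul, mul_one]
    rw [h, map_smul, smul_mul_assoc]
    exact h1 n _ (h2 y w hw)
  | add a b ha hb =>
    rw [map_add, add_mul]
    exact W.add_mem ha hb

/-- linearity of maps -/
theorem twt_lin (Φ : N ⊗[E] Y ≃ₐ[N] Δ) (f : Δ →+ Δ) (h1 : ∀ (n : N) v, f (n • v) = n • f v)
    (h2 : ∀ (x : Y) v, f (twt_j Φ x * v) = twt_j Φ x * f v) (v w : Δ) : f (v * w) = v * f w := by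
  obtain ⟨a, rfl⟩ := Φ.surjective v
  induction a using TensorProduct.induction_on with
  | zero => simp
  | tmul n y =>
    have h : (n ⊗ₜ[E] y : N ⊗[E] Y) = n • (1 ⊗ₜ y) := by
      rw [TensorProduct.smul_tmul', smul_eq_mul, mul_one]
    rw [h, map_smul, smul_mul_assoc, smul_mul_assoc, h1, ← twt_j_apply, h2]
  | add a b ha hb =>
    rw [map_add, add_mul, add_mul, map_add, ha, hb]

/-- the twisted module -/
def twt_T (Φ : N ⊗[E] Y ≃ₐ[N] Δ) : TW E N Y :=
  letI : Module Y Δ := Module.compHom Δ (twt_j Φ)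
  { B := Δᵐᵒᵖ
    V := Δ
    R := fun g => (Φ.symm.toAddEquiv.trans (twt_c Y g).toAddEquiv).trans Φ.toAddEquiv
    U := fun _ _ => 1
    nt := inferInstance
    nx := fun n x v => by
      show n • (twt_j Φ x * v) = twt_j Φ x * (n • v)
      rw [mul_smul_comm]
    nb := fun n b v => by
      show n • (v * b.unop) = (n • v) * b.unop
      rw [smul_mul_assoc]
    xb := fun x b v => by
      show twt_j Φ x * (v * b.unop) = (twt_j Φ x * v) * b.unop
      rw [mul_assoc]
    ee := fun e v => by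
      show algebraMap E N e • v = twt_j Φ (algebraMap E Y e) * v
      have h : (1 : N) ⊗ₜ[E] (algebraMap E Y e) = algebraMap N (N ⊗[E] Y) (algebraMap E N e) := by
        rw [Algebra.TensorProduct.algebraMap_apply, Algebra.algebraMap_self_apply,
          Algebra.algebraMap_eq_smul_one, Algebra.algebraMap_eq_smul_one, TensorProduct.tmul_smul,
          TensorProduct.smul_tmul']
      rw [twt_j_apply, h, AlgEquiv.commutes, Algebra.smul_def]
    bn := fun n v => by
      show v * (algebraMap N Δᵐᵒᵖ n).unop = n • v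
      rw [MulOpposite.algebraMap_apply, MulOpposite.unop_op, Algebra.smul_def, Algebra.commutes]
    sm := fun W h1 h2 => by
      by_cases hW : W = ⊥
      · exact Or.inl hW
      · refine Or.inr ?_
        rw [AddSubgroup.eq_bot_iff_forall] at hW
        push Not at hW
        obtain ⟨w, hw, hw0⟩ := hW
        rw [eq_top_iff]
        intro v _
        have h := twt_sub Φ W h1 h2 (v * w⁻¹) w hw
        rwa [mul_assoc, inv_mul_cancel₀ hw0, mul_one] at h
    full := fun f h1 h2 => by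
      refine ⟨MulOpposite.op (f 1), fun v => ?_⟩
      show f v = v * f 1
      rw [← twt_lin Φ f h1 h2, mul_one]
    rn := fun g n v => by
      show Φ (twt_c Y g (Φ.symm (n • v))) = g n • Φ (twt_c Y g (Φ.symm v))
      rw [map_smul, twt_c_n, map_smul]
    rx := fun g x v => by
      show Φ (twt_c Y g (Φ.symm (twt_j Φ x * v))) = twt_j Φ x * Φ (twt_c Y g (Φ.symm v))
      rw [map_mul, twt_j_apply, AlgEquiv.symm_apply_apply, twt_c_y, map_mul]
    co := fun g h v => by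
      show Φ (twt_c Y g (Φ.symm (Φ (twt_c Y h (Φ.symm v))))) =
        Φ (twt_c Y (g * h) (Φ.symm v)) * 1
      rw [AlgEquiv.symm_apply_apply, twt_c_c, mul_one] }

theorem TWT (hDVS : ST_DVS.{u}) : ST_TWT.{u} := by
  intro E N Y Δ _ _ _ _ _ _ _ _ _ _ hc
  obtain ⟨Φ⟩ := (hDVS N).2.1 _ _ hc.2
  exact ⟨twt_T Φ, fun g h => rfl⟩

end

end Pool.Agent.Helper47.KZ
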